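import Mathlib

set_option autoImplicit false

/-!
# The bondage number of vertex domination-critical graphs and the minimum degree

Every vertex domination-critical graph with an edge has bondage number at least `2`, and for every
`d ≥ 2` there is a connected one with minimum degree `d` and bondage number exactly `2`.

The construction: `baseG` is a graph with 12 vertices and 19 edges; it is vertex
domination-critical, its domination number is `4`, and it is `5` after the deletion of two disjoint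
edges.  A copy of the rook's graph `K_n □ K_n` (for odd `d`: with one edge deleted) is glued on each
of its vertices.
-/

namespace Pool.Agent.Results.MP_29e5d4_co.BondageTwo

/-- `D` is a dominating set of `G`: every vertex outside `D` has a neighbour in `D`. -/
def Dominates {V : Type} (G : SimpleGraph V) (D : Finset V) : Prop :=
  ∀ v : V, v ∉ D → ∃ u ∈ D, G.Adj v u

/-- The domination number: the minimum size of a dominating set. -/
noncomputable def domNum {V : Type} (G : SimpleGraph V) : ℕ :=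
  sInf {n : ℕ | ∃ D : Finset V, D.card = n ∧ Dominates G D}

/-- `G` is a vc-graph: deleting any vertex lowers the domination number. -/
def VertexCritical {V : Type} (G : SimpleGraph V) : Prop :=
  ∀ v : V, domNum (G.induce {w : V | w ≠ v}) < domNum G

/-- The bondage number: the least number of edges whose deletion raises the domination number. -/
noncomputable def bondage {V : Type} (G : SimpleGraph V) : ℕ :=
  sInf {n : ℕ | ∃ F : Finset (Sym2 V), (F : Set (Sym2 V)) ⊆ G.edgeSet ∧ F.card = n ∧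
    domNum G < domNum (G.deleteEdges (F : Set (Sym2 V)))}

/-! ### General facts -/

/-- Dominating sets, convenient form. -/
def Dom {V : Type} (G : SimpleGraph V) (D : Finset V) : Prop :=
  ∀ w : V, w ∈ D ∨ ∃ u ∈ D, G.Adj u w

theorem dom_iff {V : Type} (G : SimpleGraph V) (D : Finset V) : Dominates G D ↔ Dom G D := by
  constructor
  · intro h w
    by_cases hw : w ∈ D
    · exact Or.inl hw
    · obtain ⟨u, hu, ha⟩ := h w hw
      exact Or.inr ⟨u, hu, ha.symm⟩
  · intro h w hw
    rcases h w with h1 | ⟨u, hu, ha⟩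
    · exact absurd h1 hw
    · exact ⟨u, hu, ha.symm⟩

theorem domNum_le {V : Type} (G : SimpleGraph V) (D : Finset V) (hD : Dom G D) :
    domNum G ≤ D.card := by
  have h : D.card ∈ {n : ℕ | ∃ D : Finset V, D.card = n ∧ Dominates G D} :=
    ⟨D, rfl, (dom_iff G D).2 hD⟩
  exact Nat.sInf_le h

theorem exists_dom {V : Type} [Fintype V] (G : SimpleGraph V) :
    ∃ D : Finset V, D.card = domNum G ∧ Dom G D := by
  have hne : {n : ℕ | ∃ D : Finset V, D.card = n ∧ Dominates G D}.Nonempty :=
    ⟨(Finset.univ : Finset V).card, Finset.univ, rfl,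
      (dom_iff G _).2 fun w => Or.inl (Finset.mem_univ w)⟩
  obtain ⟨D, h1, h2⟩ := Nat.sInf_mem hne
  exact ⟨D, h1, (dom_iff G D).1 h2⟩

theorem le_domNum {V : Type} [Fintype V] (G : SimpleGraph V) (n : ℕ)
    (h : ∀ D : Finset V, Dom G D → n ≤ D.card) : n ≤ domNum G := by
  obtain ⟨D, h1, h2⟩ := exists_dom G
  rw [← h1]
  exact h D h2

theorem crit_out {V : Type} [Fintype V] (G : SimpleGraph V) (h : VertexCritical G) (v : V) :
    ∃ E : Finset V, v ∉ E ∧ E.card < domNum G ∧
      ∀ w, w ≠ v → w ∈ E ∨ ∃ u ∈ E, G.Adj u w := by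
  classical
  obtain ⟨D, hc, hD⟩ := exists_dom (G.induce {w : V | w ≠ v})
  refine ⟨D.map ⟨Subtype.val, Subtype.val_injective⟩, ?_, ?_, ?_⟩
  · intro hv
    obtain ⟨a, _, ha⟩ := Finset.mem_map.1 hv
    exact a.2 ha
  · rw [Finset.card_map, hc]
    exact h v
  · intro w hw
    rcases hD ⟨w, hw⟩ with h1 | ⟨u, hu, ha⟩
    · exact Or.inl (Finset.mem_map.2 ⟨_, h1, rfl⟩)
    · exact Or.inr ⟨u.1, Finset.mem_map.2 ⟨u, hu, rfl⟩, ha⟩

theorem crit_in {V : Type} (G : SimpleGraph V)
    (h : ∀ v, ∃ E : Finset V, v ∉ E ∧ E.card < domNum G ∧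
      ∀ w, w ≠ v → w ∈ E ∨ ∃ u ∈ E, G.Adj u w) : VertexCritical G := by
  classical
  intro v
  obtain ⟨E, hv, hc, hE⟩ := h v
  refine lt_of_le_of_lt (domNum_le _ (E.subtype (fun w => w ∈ {w : V | w ≠ v})) ?_)
    (lt_of_le_of_lt ?_ hc)
  · rintro ⟨w, hw⟩
    rcases hE w hw with h | ⟨u, hu, ha⟩
    · exact Or.inl (Finset.mem_subtype.2 h)
    · refine Or.inr ⟨⟨u, ?_⟩, Finset.mem_subtype.2 hu, ha⟩
      rintro rfl
      exact hv hu
  · rw [Finset.card_subtype]
    exact Finset.card_filter_le _ _

/-! ### The lower bounds -/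

/-- In a vc-graph the bondage number is at least `2`. -/
theorem two_le_bondage {V : Type} [Fintype V] (G : SimpleGraph V) (h : VertexCritical G)
    (he : G.edgeSet.Nonempty) : 2 ≤ bondage G := by
  classical
  refine le_csInf ?_ ?_
  · refine ⟨_, Finset.univ.filter (fun e : Sym2 V => e ∈ G.edgeSet), ?_, rfl, ?_⟩
    · intro e he
      simpa using he
    · obtain ⟨e, he⟩ := he
      induction e with
      | _ x y =>
      rw [SimpleGraph.mem_edgeSet] at he
      refine lt_of_lt_of_le (b := Fintype.card V) ?_ ?_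
      · refine lt_of_le_of_lt (domNum_le G (Finset.univ.erase x) ?_) ?_
        · intro w
          by_cases hw : w = x
          · right
            refine ⟨y, ?_, ?_⟩
            · rw [Finset.mem_erase]
              exact ⟨he.ne', Finset.mem_univ _⟩
            · rw [hw]; exact he.symm
          · left
            rw [Finset.mem_erase]
            exact ⟨hw, Finset.mem_univ _⟩
        · rw [← Finset.card_univ]
          exact Finset.card_erase_lt_of_mem (Finset.mem_univ _)
      · refine le_domNum _ _ ?_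
        intro D hD
        rw [← Finset.card_univ]
        refine Finset.card_le_card ?_
        intro w _
        rcases hD w with h1 | ⟨u, _, ha⟩
        · exact h1
        · exfalso
          rw [SimpleGraph.deleteEdges_adj] at ha
          apply ha.2
          simpa using ha.1
  · rintro n ⟨F, hF, rfl, hlt⟩
    by_contra hn
    have hn : F.card = 0 ∨ F.card = 1 := by omega
    rcases hn with hn | hn
    · rw [Finset.card_eq_zero] at hn
      subst hn
      rw [Finset.coe_empty, SimpleGraph.deleteEdges_empty] at hlt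
      exact absurd hlt (lt_irrefl _)
    · rw [Finset.card_eq_one] at hn
      obtain ⟨e, rfl⟩ := hn
      have he' : e ∈ G.edgeSet := hF (by simp)
      induction e with
      | _ x y =>
      rw [SimpleGraph.mem_edgeSet] at he'
      obtain ⟨E, hx, hc, hE⟩ := crit_out G h x
      have hle : domNum (G.deleteEdges (({s(x, y)} : Finset (Sym2 V)) : Set (Sym2 V))) ≤
          (insert x E).card := by
        refine domNum_le _ _ ?_
        intro w
        by_cases hw : w = x
        · left
          rw [hw]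
          exact Finset.mem_insert_self _ _
        · rcases hE w hw with h1 | ⟨u, hu, ha⟩
          · exact Or.inl (Finset.mem_insert_of_mem h1)
          · refine Or.inr ⟨u, Finset.mem_insert_of_mem hu, ?_⟩
            rw [SimpleGraph.deleteEdges_adj]
            refine ⟨ha, ?_⟩
            intro hm
            have hux : u ≠ x := by
              rintro rfl
              exact hx hu
            simp only [Finset.coe_singleton, Set.mem_singleton_iff, Sym2.eq_iff] at hm
            rcases hm with ⟨h1, _⟩ | ⟨_, h1⟩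
            · exact hux h1
            · exact hw h1
      have h2 := Finset.card_insert_le x E
      omega

/-- In a vc-graph no vertex has exactly one neighbour. -/
theorem no_leaf {V : Type} [Fintype V] (G : SimpleGraph V) (h : VertexCritical G) (x y : V)
    (hxy : G.Adj x y) (hu : ∀ z, G.Adj x z → z = y) : False := by
  obtain ⟨E, hy, hc, hE⟩ := crit_out G h y
  have hxE : x ∈ E := by
    rcases hE x hxy.ne with h1 | ⟨u, hu1, ha⟩
    · exact h1
    · exfalso
      have := hu u ha.symm
      rw [this] at hu1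
      exact hy hu1
  have : domNum G ≤ E.card := by
    refine domNum_le _ _ ?_
    intro w
    by_cases hw : w = y
    · right
      rw [hw]
      exact ⟨x, hxE, hxy⟩
    · exact hE w hw
  omega

/-- A connected vc-graph with an edge has minimum degree at least `2`. -/
theorem two_le_minDegree {V : Type} [Fintype V] (G : SimpleGraph V) [DecidableRel G.Adj]
    (h : VertexCritical G) (he : G.edgeSet.Nonempty) (hc : G.Connected) : 2 ≤ G.minDegree := by
  classical
  obtain ⟨e, he⟩ := he
  induction e with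
  | _ a b =>
  rw [SimpleGraph.mem_edgeSet] at he
  have hnt : Nontrivial V := ⟨⟨a, b, he.ne⟩⟩
  apply SimpleGraph.le_minDegree_of_forall_le_degree
  intro v
  have h0 : 0 < G.degree v := hc.preconnected.degree_pos_of_nontrivial v
  have h1 : G.degree v ≠ 1 := by
    intro h1
    rw [SimpleGraph.degree_eq_one_iff_existsUnique_adj] at h1
    obtain ⟨y, hy, hu⟩ := h1
    exact no_leaf G h v y hy hu
  omega

/-! ### Gluing a copy of `H` on every vertex of `B` -/

section glue

variable {V W : Type}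

/-- On every vertex of `B` a copy of `H` is glued with its vertex `s`. -/
def glue (B : SimpleGraph V) (H : SimpleGraph W) (s : W) : SimpleGraph (V × W) where
  Adj x y := (x.1 = y.1 ∧ H.Adj x.2 y.2) ∨ (x.2 = s ∧ y.2 = s ∧ B.Adj x.1 y.1)
  symm := ⟨by
    rintro x y (⟨h1, h2⟩ | ⟨h1, h2, h3⟩)
    · exact Or.inl ⟨h1.symm, h2.symm⟩
    · exact Or.inr ⟨h2, h1, h3.symm⟩⟩
  loopless := ⟨by
    rintro x (⟨_, h2⟩ | ⟨_, _, h3⟩)
    · exact H.irrefl h2
    · exact B.irrefl h3⟩

variable (B : SimpleGraph V) (H : SimpleGraph W) (s : W)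

/-- The part of `D` in the copy number `c`. -/
def fib [Fintype W] [DecidableEq V] [DecidableEq W] (D : Finset (V × W)) (c : V) : Finset W :=
  Finset.univ.filter (fun x => (c, x) ∈ D)

theorem mem_fib [Fintype W] [DecidableEq V] [DecidableEq W] (D : Finset (V × W)) (c : V) (x : W) :
    x ∈ fib D c ↔ (c, x) ∈ D := by
  simp [fib]

theorem card_fib [Fintype V] [Fintype W] [DecidableEq V] [DecidableEq W] (D : Finset (V × W)) :
    D.card = ∑ c : V, (fib D c).card := by
  have h1 : D.card = ∑ p : V × W, if p ∈ D then 1 else 0 := by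
    rw [Finset.sum_ite_mem, Finset.univ_inter, Finset.sum_const, smul_eq_mul, mul_one]
  rw [h1, Fintype.sum_prod_type]
  refine Finset.sum_congr rfl ?_
  intro c _
  rw [fib, Finset.card_filter]

theorem glue_lower [Fintype V] [Fintype W] (h : ℕ) (hh : domNum H = h + 1)
    (D : Finset (V × W)) (hD : Dom (glue B H s) D) :
    h * Fintype.card V + domNum B ≤ D.card := by
  classical
  have hA : ∀ c, Dom H (fib D c) → h + 1 ≤ (fib D c).card := by
    intro c hc
    rw [← hh]
    exact domNum_le H _ hc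
  have hin : ∀ c, ∀ w, w ≠ s → w ∈ fib D c ∨ ∃ u ∈ fib D c, H.Adj u w := by
    intro c w hw
    rcases hD (c, w) with h1 | ⟨u, hu, ha⟩
    · exact Or.inl ((mem_fib D c w).2 h1)
    · rcases ha with ⟨h1, h2⟩ | ⟨_, h2, _⟩
      · refine Or.inr ⟨u.2, (mem_fib D c _).2 ?_, h2⟩
        have : (c, u.2) = u := Prod.ext h1.symm rfl
        rw [this]; exact hu
      · exact absurd h2 hw
  have hs : ∀ c, s ∈ fib D c → h + 1 ≤ (fib D c).card := by
    intro c hc
    apply hA c
    intro w
    by_cases hw : w = s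
    · left; rw [hw]; exact hc
    · exact hin c w hw
  have hB : ∀ c, h ≤ (fib D c).card := by
    intro c
    have h1 : domNum H ≤ (insert s (fib D c)).card := by
      refine domNum_le H _ ?_
      intro w
      by_cases hw : w = s
      · left; rw [hw]; exact Finset.mem_insert_self _ _
      · rcases hin c w hw with h1 | ⟨u, hu, ha⟩
        · exact Or.inl (Finset.mem_insert_of_mem h1)
        · exact Or.inr ⟨u, Finset.mem_insert_of_mem hu, ha⟩
    have h2 := Finset.card_insert_le s (fib D c)
    omega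
  have hC : ∀ c, (fib D c).card < h + 1 → ∃ c', B.Adj c' c ∧ h + 1 ≤ (fib D c').card := by
    intro c hc
    rcases hD (c, s) with h1 | ⟨u, hu, ha⟩
    · have := hs c ((mem_fib D c s).2 h1)
      omega
    · rcases ha with ⟨h1, h2⟩ | ⟨h1, _, h3⟩
      · exfalso
        have h4 : u.2 ∈ fib D c := by
          rw [mem_fib]
          have : (c, u.2) = u := Prod.ext h1.symm rfl
          rw [this]; exact hu
        have h5 : h + 1 ≤ (fib D c).card := by
          apply hA c
          intro w
          by_cases hw : w = s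
          · right; rw [hw]; exact ⟨u.2, h4, h2⟩
          · exact hin c w hw
        omega
      · refine ⟨u.1, h3, ?_⟩
        apply hs
        rw [mem_fib]
        have : (u.1, s) = u := Prod.ext rfl h1.symm
        rw [this]; exact hu
  obtain ⟨S, hS⟩ : ∃ S : Finset V, ∀ c, c ∈ S ↔ h + 1 ≤ (fib D c).card :=
    ⟨Finset.univ.filter (fun c => h + 1 ≤ (fib D c).card), fun c => by simp⟩
  have hSd : domNum B ≤ S.card := by
    refine domNum_le B S ?_
    intro c
    by_cases hc : h + 1 ≤ (fib D c).card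
    · exact Or.inl ((hS c).2 hc)
    · obtain ⟨c', h1, h2⟩ := hC c (by omega)
      exact Or.inr ⟨c', (hS c').2 h2, h1⟩
  have hsum : ∑ c : V, (h + if c ∈ S then 1 else 0) ≤ D.card := by
    rw [card_fib D]
    refine Finset.sum_le_sum ?_
    intro c _
    by_cases hc : h + 1 ≤ (fib D c).card
    · rw [if_pos ((hS c).2 hc)]; exact hc
    · rw [if_neg (fun h' => hc ((hS c).1 h'))]; exact hB c
  rw [Finset.sum_add_distrib, Finset.sum_const, Finset.card_univ, smul_eq_mul,
    Finset.sum_ite_mem, Finset.univ_inter, Finset.sum_const, smul_eq_mul, mul_one] at hsum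
  rw [mul_comm]
  omega

theorem glue_upper [Fintype V] [Fintype W] (h : ℕ) (E : Finset W) (hE : E.card ≤ h)
    (hEd : ∀ w, w ≠ s → w ∈ E ∨ ∃ u ∈ E, H.Adj u w) :
    domNum (glue B H s) ≤ h * Fintype.card V + domNum B := by
  classical
  obtain ⟨T, hT, hTd⟩ := exists_dom B
  refine (domNum_le _ ((Finset.univ ×ˢ E) ∪ (T ×ˢ {s})) ?_).trans ?_
  · rintro ⟨c, w⟩
    by_cases hw : w = s
    · subst hw
      rcases hTd c with h1 | ⟨u, hu, ha⟩
      · left; simp [h1]
      · right
        exact ⟨(u, w), by simp [hu], Or.inr ⟨rfl, rfl, ha⟩⟩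
    · rcases hEd w hw with h1 | ⟨u, hu, ha⟩
      · left; simp [h1]
      · right
        exact ⟨(c, u), by simp [hu], Or.inl ⟨rfl, ha⟩⟩
  · refine (Finset.card_union_le _ _).trans ?_
    rw [Finset.card_product, Finset.card_product, Finset.card_univ, Finset.card_singleton, mul_one,
      hT, mul_comm]
    exact Nat.add_le_add_right (Nat.mul_le_mul_right _ hE) _

theorem glue_critical [Fintype V] [Fintype W] (h : ℕ) (hh : domNum H = h + 1)
    (hB : VertexCritical B) (hH : VertexCritical H) : VertexCritical (glue B H s) := by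
  classical
  apply crit_in
  rintro ⟨b, j⟩
  obtain ⟨T, hbT, hTc, hT⟩ := crit_out B hB b
  obtain ⟨Ej, hjE, hEjc, hEj⟩ := crit_out H hH j
  obtain ⟨Es, hsE, hEsc, hEs⟩ := crit_out H hH s
  have hlow : h * Fintype.card V + domNum B ≤ domNum (glue B H s) :=
    le_domNum _ _ fun D hD => glue_lower B H s h hh D hD
  have hpos : 1 ≤ Fintype.card V := Fintype.card_pos_iff.2 ⟨b⟩
  refine ⟨(({b} : Finset V) ×ˢ Ej) ∪ ((Finset.univ.erase b ×ˢ Es) ∪ (T ×ˢ {s})), ?_, ?_, ?_⟩
  · simp only [Finset.mem_union, Finset.mem_product, Finset.mem_singleton, Finset.mem_erase]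
    rintro (⟨_, h1⟩ | ⟨⟨h1, _⟩, _⟩ | ⟨h1, _⟩)
    · exact hjE h1
    · exact h1 rfl
    · exact hbT h1
  · refine lt_of_le_of_lt ((Finset.card_union_le _ _).trans
      (Nat.add_le_add_left (Finset.card_union_le _ _) _)) (lt_of_lt_of_le ?_ hlow)
    rw [Finset.card_product, Finset.card_product, Finset.card_product, Finset.card_singleton,
      Finset.card_singleton, one_mul, mul_one, Finset.card_erase_of_mem (Finset.mem_univ _),
      Finset.card_univ]
    rw [hh] at hEjc hEsc
    obtain ⟨N, hN⟩ : ∃ N, Fintype.card V = N + 1 := ⟨Fintype.card V - 1, by omega⟩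
    rw [hN, Nat.add_sub_cancel]
    have h1 : N * Es.card ≤ N * h := Nat.mul_le_mul_left _ (by omega)
    have h2 : h * (N + 1) = N * h + h := by ring
    rw [h2]
    omega
  · rintro ⟨c, y⟩ hne
    by_cases hc : c = b
    · subst hc
      have hy : y ≠ j := by
        rintro rfl
        exact hne rfl
      rcases hEj y hy with h1 | ⟨u, hu, ha⟩
      · left; simp [h1]
      · right
        exact ⟨(c, u), by simp [hu], Or.inl ⟨rfl, ha⟩⟩
    · by_cases hy : y = s
      · subst hy
        rcases hT c hc with h1 | ⟨u, hu, ha⟩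
        · left; simp [h1]
        · right
          exact ⟨(u, y), by simp [hu], Or.inr ⟨rfl, rfl, ha⟩⟩
      · rcases hEs y hy with h1 | ⟨u, hu, ha⟩
        · left; simp [h1, hc]
        · right
          exact ⟨(c, u), by simp [hu, hc], Or.inl ⟨rfl, ha⟩⟩

/-- Deleting edges of `B` which raise its domination number raises that of the glued graph. -/
theorem glue_bondage [Fintype V] [Fintype W] [DecidableEq V] [DecidableEq W] (h : ℕ)
    (hh : domNum H = h + 1) (hH : VertexCritical H) (F : Finset (Sym2 V))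
    (hF : (F : Set (Sym2 V)) ⊆ B.edgeSet)
    (hlt : domNum B < domNum (B.deleteEdges (F : Set (Sym2 V)))) :
    bondage (glue B H s) ≤ F.card := by
  obtain ⟨Es, hsE, hEsc, hEs⟩ := crit_out H hH s
  have hup := glue_upper B H s h Es (by omega) hEs
  let f : Sym2 V → Sym2 (V × W) := Sym2.map (fun c => (c, s))
  have hmem : (F.image f).card ∈ {n : ℕ | ∃ F : Finset (Sym2 (V × W)),
      (F : Set (Sym2 (V × W))) ⊆ (glue B H s).edgeSet ∧ F.card = n ∧
        domNum (glue B H s) < domNum ((glue B H s).deleteEdges (F : Set (Sym2 (V × W))))} := by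
    refine ⟨F.image f, ?_, rfl, ?_⟩
    · intro e he
      rw [Finset.mem_coe, Finset.mem_image] at he
      obtain ⟨e', he', rfl⟩ := he
      have := hF (Finset.mem_coe.2 he')
      induction e' with
      | _ x y =>
      rw [SimpleGraph.mem_edgeSet] at this
      show Sym2.map (fun c => (c, s)) s(x, y) ∈ (glue B H s).edgeSet
      rw [Sym2.map_mk, SimpleGraph.mem_edgeSet]
      exact Or.inr ⟨rfl, rfl, this⟩
    · refine lt_of_le_of_lt hup ?_
      refine lt_of_lt_of_le (Nat.add_lt_add_left hlt _) ?_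
      refine le_domNum _ _ ?_
      intro D hD
      refine glue_lower (B.deleteEdges (F : Set (Sym2 V))) H s h hh D ?_
      intro w
      rcases hD w with h1 | ⟨u, hu, ha⟩
      · exact Or.inl h1
      · refine Or.inr ⟨u, hu, ?_⟩
        rw [SimpleGraph.deleteEdges_adj] at ha
        rcases ha with ⟨h1 | ⟨h1, h2, h3⟩, h4⟩
        · exact Or.inl h1
        · refine Or.inr ⟨h1, h2, ?_⟩
          rw [SimpleGraph.deleteEdges_adj]
          refine ⟨h3, ?_⟩
          intro h5
          apply h4
          rw [Finset.mem_coe, Finset.mem_image]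
          refine ⟨s(u.1, w.1), h5, ?_⟩
          have h6 : (u.1, s) = u := Prod.ext rfl h1.symm
          have h7 : (w.1, s) = w := Prod.ext rfl h2.symm
          show s((u.1, s), (w.1, s)) = s(u, w)
          rw [h6, h7]
  exact (Nat.sInf_le hmem).trans Finset.card_image_le

theorem glue_reach (c : V) (x : W) (h : H.Reachable x s) :
    (glue B H s).Reachable (c, x) (c, s) := by
  let f : H →g glue B H s := ⟨fun y => (c, y), fun h => Or.inl ⟨rfl, h⟩⟩
  exact h.map f

theorem glue_reach' (c c' : V) (h : B.Reachable c c') :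
    (glue B H s).Reachable (c, s) (c', s) := by
  let f : B →g glue B H s := ⟨fun y => (y, s), fun h => Or.inr ⟨rfl, rfl, h⟩⟩
  exact h.map f

theorem glue_connected (c0 : V) (hB : ∀ c, B.Reachable c c0) (hH : ∀ x, H.Reachable x s) :
    (glue B H s).Connected := by
  rw [SimpleGraph.connected_iff_exists_forall_reachable]
  refine ⟨(c0, s), ?_⟩
  rintro ⟨c, x⟩
  exact ((glue_reach B H s c x (hH x)).trans (glue_reach' B H s c c0 (hB c))).symm

end glue

/-! ### The base graph -/

/-- The closed neighbourhoods of the base graph as bit masks (12 bits for each vertex). -/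
def rowB (a : Fin 12) : ℕ := (11609117335874013385697976120800058305229827 >>> (12 * a.val)) % 4096

/-- The same after the deletion of the edges `01` and `23`. -/
def rowF (a : Fin 12) : ℕ := (11609117335874013385697976120799783293101057 >>> (12 * a.val)) % 4096

/-- The base graph: edges 0-1, 0-10, 1-4, 2-3, 2-11, 3-6, 3-8, 3-9, 4-6, 4-11, 5-7, 5-8, 5-9, 5-10,
6-7, 6-9, 6-11, 7-8, 7-9. -/
def baseG : SimpleGraph (Fin 12) where
  Adj a b := a ≠ b ∧ (rowB a).testBit b.val = true
  symm := ⟨by decide +kernel⟩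
  loopless := ⟨by decide +kernel⟩

instance : DecidableRel baseG.Adj := fun a b => by unfold baseG; infer_instance

/-- The two deleted edges. -/
def baseF : Finset (Sym2 (Fin 12)) := {s(0, 1), s(2, 3)}

theorem rowB_bit : ∀ a b : Fin 12, (a = b ∨ baseG.Adj a b) → (rowB a).testBit b.val = true := by
  decide +kernel

theorem rowF_bit : ∀ a b : Fin 12, (a = b ∨ (baseG.Adj a b ∧ s(a, b) ∉ baseF)) →
    (rowF a).testBit b.val = true := by
  decide +kernel

theorem three_B : ∀ a b c : Fin 12, rowB a ||| rowB b ||| rowB c ≠ 4095 := by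
  decide +kernel

theorem four_F : ∀ a b c d : Fin 12, rowF a ||| rowF b ||| rowF c ||| rowF d ≠ 4095 := by
  decide +kernel

theorem full_mask (m : ℕ) (hm : m < 4096) (h : ∀ i : Fin 12, m.testBit i.val = true) :
    m = 4095 := by
  apply Nat.eq_of_testBit_eq
  intro i
  by_cases hi : i < 12
  · have h1 := h ⟨i, hi⟩
    have h2 : ∀ j : Fin 12, (4095 : ℕ).testBit j.val = true := by decide +kernel
    rw [h1, h2 ⟨i, hi⟩]
  · have h1 : m < 2 ^ i :=
      lt_of_lt_of_le hm (by
        calc 4096 = 2 ^ 12 := by norm_num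
          _ ≤ 2 ^ i := Nat.pow_le_pow_right (by norm_num) (by omega))
    have h2 : 4095 < 2 ^ i := lt_of_lt_of_le (by norm_num : (4095 : ℕ) < 4096) (by
        calc 4096 = 2 ^ 12 := by norm_num
          _ ≤ 2 ^ i := Nat.pow_le_pow_right (by norm_num) (by omega))
    rw [Nat.testBit_lt_two_pow h1, Nat.testBit_lt_two_pow h2]

theorem rowB_lt (a : Fin 12) : rowB a < 4096 := Nat.mod_lt _ (by norm_num)

theorem rowF_lt (a : Fin 12) : rowF a < 4096 := Nat.mod_lt _ (by norm_num)

theorem base_ge (D : Finset (Fin 12)) (hD : Dom baseG D) : 4 ≤ D.card := by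
  by_contra hc
  obtain ⟨T, hT, hTc⟩ : ∃ T, D ⊆ T ∧ T.card = 3 :=
    Finset.exists_superset_card_eq (by omega) (by simp)
  obtain ⟨a, b, c, _, _, _, rfl⟩ := Finset.card_eq_three.1 hTc
  apply three_B a b c
  apply full_mask
  · have h1 : 4096 = 2 ^ 12 := by norm_num
    rw [h1]
    refine Nat.or_lt_two_pow (Nat.or_lt_two_pow ?_ ?_) ?_ <;> exact rowB_lt _
  · intro i
    have hcov : ∃ u ∈ ({a, b, c} : Finset (Fin 12)), (rowB u).testBit i.val = true := by
      rcases hD i with h1 | ⟨u, hu, ha⟩
      · exact ⟨i, hT h1, rowB_bit i i (Or.inl rfl)⟩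
      · exact ⟨u, hT hu, rowB_bit u i (Or.inr ha)⟩
    obtain ⟨u, hu, hb⟩ := hcov
    rw [Nat.testBit_or, Nat.testBit_or]
    simp only [Finset.mem_insert, Finset.mem_singleton] at hu
    rcases hu with rfl | rfl | rfl <;> simp [hb]

theorem baseF_ge (D : Finset (Fin 12))
    (hD : Dom (baseG.deleteEdges (baseF : Set (Sym2 (Fin 12)))) D) : 5 ≤ D.card := by
  by_contra hc
  obtain ⟨T, hT, hTc⟩ : ∃ T, D ⊆ T ∧ T.card = 4 :=
    Finset.exists_superset_card_eq (by omega) (by simp)
  obtain ⟨d, T', hd, rfl, hTc'⟩ := Finset.card_eq_succ.1 hTc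
  obtain ⟨a, b, c, _, _, _, rfl⟩ := Finset.card_eq_three.1 hTc'
  apply four_F d a b c
  apply full_mask
  · have h1 : 4096 = 2 ^ 12 := by norm_num
    rw [h1]
    refine Nat.or_lt_two_pow (Nat.or_lt_two_pow (Nat.or_lt_two_pow ?_ ?_) ?_) ?_ <;>
      exact rowF_lt _
  · intro i
    have hcov : ∃ u ∈ (insert d {a, b, c} : Finset (Fin 12)), (rowF u).testBit i.val = true := by
      rcases hD i with h1 | ⟨u, hu, ha⟩
      · exact ⟨i, hT h1, rowF_bit i i (Or.inl rfl)⟩
      · rw [SimpleGraph.deleteEdges_adj] at ha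
        exact ⟨u, hT hu, rowF_bit u i (Or.inr ⟨ha.1, fun h => ha.2 (Finset.mem_coe.2 h)⟩)⟩
    obtain ⟨u, hu, hb⟩ := hcov
    rw [Nat.testBit_or, Nat.testBit_or, Nat.testBit_or]
    simp only [Finset.mem_insert, Finset.mem_singleton] at hu
    rcases hu with rfl | rfl | rfl | rfl <;> simp [hb]

theorem domNum_base : domNum baseG = 4 := by
  apply le_antisymm
  · refine (domNum_le baseG {0, 1, 2, 7} ?_).trans (by decide)
    unfold Dom
    decide +kernel
  · exact le_domNum _ _ base_ge

theorem domNum_baseF : 5 ≤ domNum (baseG.deleteEdges (baseF : Set (Sym2 (Fin 12)))) :=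
  le_domNum _ _ baseF_ge

/-- Dominating sets of the vertex deleted subgraphs of the base graph. -/
def baseT (b : Fin 12) : Finset (Fin 12) :=
  ![{2, 4, 5}, {3, 6, 10}, {0, 5, 6}, {0, 5, 11}, {0, 2, 7}, {0, 3, 6}, {1, 2, 5}, {3, 4, 10},
    {0, 9, 11}, {0, 8, 11}, {1, 2, 7}, {1, 3, 5}] b

theorem baseT_spec : ∀ b : Fin 12, b ∉ baseT b ∧ (baseT b).card < 4 ∧
    ∀ w, w ≠ b → w ∈ baseT b ∨ ∃ u ∈ baseT b, baseG.Adj u w := by
  decide +kernel

theorem base_critical : VertexCritical baseG := by
  apply crit_in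
  intro b
  refine ⟨baseT b, (baseT_spec b).1, ?_, (baseT_spec b).2.2⟩
  rw [domNum_base]
  exact (baseT_spec b).2.1

theorem baseF_sub : (baseF : Set (Sym2 (Fin 12))) ⊆ baseG.edgeSet := by
  intro e he
  simp only [baseF, Finset.coe_insert, Finset.coe_singleton, Set.mem_insert_iff,
    Set.mem_singleton_iff] at he
  rcases he with rfl | rfl
  · rw [SimpleGraph.mem_edgeSet]; decide +kernel
  · rw [SimpleGraph.mem_edgeSet]; decide +kernel

/-- Next vertex on a path to the vertex `0`. -/
def basePar (b : Fin 12) : Fin 12 := ![0, 0, 11, 6, 1, 10, 4, 5, 5, 5, 0, 4] b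

/-- The distance to the vertex `0`. -/
def baseRk (b : Fin 12) : ℕ := ![0, 1, 4, 4, 2, 2, 3, 3, 3, 3, 1, 3] b

theorem basePar_spec : ∀ b : Fin 12, b = 0 ∨
    (baseG.Adj b (basePar b) ∧ baseRk (basePar b) < baseRk b) := by
  decide +kernel

theorem base_reach : ∀ n : ℕ, ∀ b : Fin 12, baseRk b < n → baseG.Reachable b 0 := by
  intro n
  induction n with
  | zero => intro b hb; exact absurd hb (Nat.not_lt_zero _)
  | succ n ih =>
    intro b hb
    rcases basePar_spec b with rfl | ⟨h1, h2⟩
    · exact SimpleGraph.Reachable.refl _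
    · exact h1.reachable.trans (ih _ (by omega))

/-! ### The rook's graph, possibly with one edge deleted -/

/-- The rook's graph on `n × n` squares; if `t` is true the edge between the squares `(0, 0)` and
`(0, 1)` is deleted. -/
def rook (n : ℕ) (t : Bool) : SimpleGraph (Fin n × Fin n) where
  Adj x y := ((x.1 = y.1 ∧ x.2 ≠ y.2) ∨ (x.1 ≠ y.1 ∧ x.2 = y.2)) ∧
    ¬ (t = true ∧ x.1.val = 0 ∧ y.1.val = 0 ∧ x.2.val < 2 ∧ y.2.val < 2)
  symm := ⟨by
    rintro x y ⟨h1, h2⟩
    refine ⟨?_, ?_⟩
    · rcases h1 with ⟨h3, h4⟩ | ⟨h3, h4⟩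
      · exact Or.inl ⟨h3.symm, h4.symm⟩
      · exact Or.inr ⟨h3.symm, h4.symm⟩
    · rintro ⟨h3, h4, h5, h6, h7⟩
      exact h2 ⟨h3, h5, h4, h7, h6⟩⟩
  loopless := ⟨by
    rintro x ⟨h1 | h1, _⟩
    · exact h1.2 rfl
    · exact h1.1 rfl⟩

instance (n : ℕ) (t : Bool) : DecidableRel (rook n t).Adj := fun x y => by
  unfold rook; infer_instance

theorem rook_col {n : ℕ} {t : Bool} {a a' b : Fin n} (h : a ≠ a') :
    (rook n t).Adj (a, b) (a', b) := by
  refine ⟨Or.inr ⟨h, rfl⟩, ?_⟩
  rintro ⟨_, h1, h2, _, _⟩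
  exact h (Fin.ext (h1.trans h2.symm))

theorem rook_ge {n : ℕ} {t : Bool} (D : Finset (Fin n × Fin n)) (hD : Dom (rook n t) D) :
    n ≤ D.card := by
  classical
  by_contra hc
  have h1 : (D.image Prod.fst).card < (Finset.univ : Finset (Fin n)).card := by
    rw [Finset.card_univ, Fintype.card_fin]
    exact lt_of_le_of_lt Finset.card_image_le (by omega)
  have h2 : (D.image Prod.snd).card < (Finset.univ : Finset (Fin n)).card := by
    rw [Finset.card_univ, Fintype.card_fin]
    exact lt_of_le_of_lt Finset.card_image_le (by omega)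
  obtain ⟨a, _, ha⟩ := Finset.exists_mem_notMem_of_card_lt_card h1
  obtain ⟨b, _, hb⟩ := Finset.exists_mem_notMem_of_card_lt_card h2
  rcases hD (a, b) with h3 | ⟨u, hu, h3 | h3, _⟩
  · exact ha (Finset.mem_image.2 ⟨_, h3, rfl⟩)
  · exact ha (Finset.mem_image.2 ⟨u, hu, h3.1⟩)
  · exact hb (Finset.mem_image.2 ⟨u, hu, h3.2⟩)

/-- The permutation which places the rooks. -/
theorem exists_perm {n : ℕ} (hn : 3 ≤ n) (r c : Fin n) :
    ∃ σ : Equiv.Perm (Fin n), σ r = c ∧ ∀ z : Fin n, z.val = 0 → r ≠ z → c.val < 2 →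
      (σ z).val = 2 := by
  classical
  by_cases hr : r.val = 0 ∨ 2 ≤ c.val
  · refine ⟨Equiv.swap r c, Equiv.swap_apply_left _ _, ?_⟩
    intro z hz hrz hc
    rcases hr with hr | hr
    · exact absurd (Fin.ext (hr.trans hz.symm)) hrz
    · omega
  · have hr1 : r.val ≠ 0 := fun h => hr (Or.inl h)
    have hc1 : c.val < 2 := by
      by_contra h
      exact hr (Or.inr (by omega))
    have hz0 : (⟨0, by omega⟩ : Fin n) ≠ r := by
      intro h
      apply hr1
      rw [← h]
    refine ⟨(Equiv.swap r c).trans (Equiv.swap (Equiv.swap r c ⟨0, by omega⟩) ⟨2, by omega⟩),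
      ?_, ?_⟩
    · rw [Equiv.trans_apply, Equiv.swap_apply_left]
      apply Equiv.swap_apply_of_ne_of_ne
      · intro h
        apply hz0
        apply (Equiv.swap r c).injective
        rw [Equiv.swap_apply_left]
        exact h.symm
      · intro h
        rw [h] at hc1
        simp at hc1
    · intro z hz _ _
      have : z = ⟨0, by omega⟩ := Fin.ext hz
      rw [this, Equiv.trans_apply, Equiv.swap_apply_left]

theorem rook_set {n : ℕ} {t : Bool} (ht : t = true → 3 ≤ n) (v : Fin n × Fin n) :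
    ∃ E : Finset (Fin n × Fin n), v ∉ E ∧ E.card < n ∧
      ∀ w, w ≠ v → w ∈ E ∨ ∃ u ∈ E, (rook n t).Adj u w := by
  classical
  obtain ⟨r, c⟩ := v
  obtain ⟨σ, hσ, hσ2⟩ : ∃ σ : Equiv.Perm (Fin n), σ r = c ∧ (t = true → ∀ z : Fin n,
      z.val = 0 → r ≠ z → c.val < 2 → (σ z).val = 2) := by
    by_cases h : t = true
    · obtain ⟨σ, h1, h2⟩ := exists_perm (ht h) r c
      exact ⟨σ, h1, fun _ => h2⟩
    · exact ⟨Equiv.swap r c, Equiv.swap_apply_left _ _, fun h' => absurd h' h⟩
  have hmem : ∀ a, a ≠ r → (a, σ a) ∈ (Finset.univ.erase r).image (fun a => (a, σ a)) := by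
    intro a ha
    exact Finset.mem_image.2 ⟨a, Finset.mem_erase.2 ⟨ha, Finset.mem_univ _⟩, rfl⟩
  refine ⟨(Finset.univ.erase r).image (fun a => (a, σ a)), ?_, ?_, ?_⟩
  · intro h
    obtain ⟨a, ha, h1⟩ := Finset.mem_image.1 h
    exact (Finset.mem_erase.1 ha).1 (Prod.ext_iff.1 h1).1
  · refine lt_of_le_of_lt Finset.card_image_le ?_
    have := Finset.card_erase_lt_of_mem (Finset.mem_univ r)
    rwa [Finset.card_univ, Fintype.card_fin] at this
  · rintro ⟨a, b⟩ hw
    by_cases hb : b = c
    · -- dominated by the rook in its row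
      have ha : a ≠ r := by
        rintro rfl
        exact hw (by rw [hb])
      refine Or.inr ⟨(a, σ a), hmem a ha, ?_⟩
      refine ⟨Or.inl ⟨rfl, ?_⟩, ?_⟩
      · show σ a ≠ b
        rw [hb, ← hσ]
        intro h
        exact ha (σ.injective h)
      · rintro ⟨h1, h2, _, h3, h4⟩
        have h5 := hσ2 h1 a h2 ha.symm (by rw [← hb]; exact h4)
        have h3' : (σ a).val < 2 := h3
        omega
    · -- dominated by the rook in its column
      have h1 : σ.symm b ≠ r := by
        intro h
        apply hb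
        rw [← hσ, ← h, Equiv.apply_symm_apply]
      have h2 := hmem (σ.symm b) h1
      rw [Equiv.apply_symm_apply] at h2
      by_cases ha : σ.symm b = a
      · left
        rw [← ha]
        exact h2
      · exact Or.inr ⟨_, h2, rook_col ha⟩

theorem domNum_rook {n : ℕ} {t : Bool} (hn : 0 < n) (ht : t = true → 3 ≤ n) :
    domNum (rook n t) = n := by
  classical
  apply le_antisymm
  · obtain ⟨E, _, hE, hd⟩ := rook_set ht (⟨0, hn⟩, ⟨0, hn⟩)
    refine (domNum_le _ (insert (⟨0, hn⟩, ⟨0, hn⟩) E) ?_).trans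
      ((Finset.card_insert_le _ _).trans hE)
    intro w
    by_cases hw : w = (⟨0, hn⟩, ⟨0, hn⟩)
    · left
      rw [hw]
      exact Finset.mem_insert_self _ _
    · rcases hd w hw with h1 | ⟨u, hu, ha⟩
      · exact Or.inl (Finset.mem_insert_of_mem h1)
      · exact Or.inr ⟨u, Finset.mem_insert_of_mem hu, ha⟩
  · exact le_domNum _ _ rook_ge

theorem rook_critical {n : ℕ} {t : Bool} (hn : 0 < n) (ht : t = true → 3 ≤ n) :
    VertexCritical (rook n t) := by
  apply crit_in
  intro v
  rw [domNum_rook hn ht]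
  exact rook_set ht v

theorem rook_reach {n : ℕ} {t : Bool} (hn : 2 ≤ n) (x : Fin n × Fin n) :
    (rook n t).Reachable x (⟨1, hn⟩, ⟨1, hn⟩) := by
  obtain ⟨a, b⟩ := x
  have h1 : (rook n t).Reachable (a, b) (⟨1, hn⟩, b) := by
    by_cases ha : a = ⟨1, hn⟩
    · rw [ha]
    · exact (rook_col ha).reachable
  have h2 : (rook n t).Reachable (⟨1, hn⟩, b) (⟨1, hn⟩, ⟨1, hn⟩) := by
    by_cases hb : b = ⟨1, hn⟩
    · rw [hb]
    · refine SimpleGraph.Adj.reachable ⟨Or.inl ⟨rfl, hb⟩, ?_⟩
      rintro ⟨_, h3, _⟩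
      simp at h3
  exact h1.trans h2

/-! ### Degrees -/

/-- The neighbours of a square in the rook's graph. -/
def cross {n : ℕ} (v : Fin n × Fin n) : Finset (Fin n × Fin n) :=
  (Finset.univ.erase v.2).image (fun b => (v.1, b)) ∪
    (Finset.univ.erase v.1).image (fun a => (a, v.2))

theorem mem_cross {n : ℕ} (v w : Fin n × Fin n) : w ∈ cross v ↔
    (v.1 = w.1 ∧ v.2 ≠ w.2) ∨ (v.1 ≠ w.1 ∧ v.2 = w.2) := by
  obtain ⟨a, b⟩ := v
  obtain ⟨a', b'⟩ := w
  simp only [cross, Finset.mem_union, Finset.mem_image, Finset.mem_erase, Finset.mem_univ, and_true,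
    Prod.mk.injEq]
  constructor
  · rintro (⟨c, h1, h2, rfl⟩ | ⟨c, h1, rfl, h2⟩)
    · exact Or.inl ⟨h2, h1.symm⟩
    · exact Or.inr ⟨h1.symm, h2⟩
  · rintro (⟨h1, h2⟩ | ⟨h1, h2⟩)
    · exact Or.inl ⟨b', h2.symm, h1, rfl⟩
    · exact Or.inr ⟨a', h1.symm, rfl, h2⟩

theorem card_cross {n : ℕ} (v : Fin n × Fin n) : (cross v).card = 2 * (n - 1) := by
  rw [cross, Finset.card_union_of_disjoint, Finset.card_image_of_injective,
    Finset.card_image_of_injective, Finset.card_erase_of_mem (Finset.mem_univ _),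
    Finset.card_erase_of_mem (Finset.mem_univ _), Finset.card_univ, Fintype.card_fin]
  · omega
  · intro a b h
    exact (Prod.ext_iff.1 h).1
  · intro a b h
    exact (Prod.ext_iff.1 h).2
  · rw [Finset.disjoint_left]
    intro x h1 h2
    obtain ⟨b, hb, rfl⟩ := Finset.mem_image.1 h1
    obtain ⟨a, ha, h3⟩ := Finset.mem_image.1 h2
    exact (Finset.mem_erase.1 ha).1 (Prod.ext_iff.1 h3).1

/-- The other one of the first two squares of a row. -/
def partner {n : ℕ} (hn : 2 ≤ n) (x : Fin n × Fin n) : Fin n × Fin n :=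
  (x.1, if x.2.val = 0 then ⟨1, hn⟩ else ⟨0, by omega⟩)

/-- Neighbours of `x` in `rook n t`. -/
def nbs {n : ℕ} (hn : 2 ≤ n) (t : Bool) (x : Fin n × Fin n) : Finset (Fin n × Fin n) :=
  if t = true then (cross x).erase (partner hn x) else cross x

theorem nbs_adj {n : ℕ} (hn : 2 ≤ n) (t : Bool) (x y : Fin n × Fin n) (h : y ∈ nbs hn t x) :
    (rook n t).Adj x y := by
  cases t
  · rw [nbs, if_neg (by decide), mem_cross] at h
    exact ⟨h, fun h' => by simp at h'⟩
  · rw [nbs, if_pos rfl, Finset.mem_erase, mem_cross] at h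
    refine ⟨h.2, ?_⟩
    rintro ⟨_, h1, h2, h3, h4⟩
    have h5 : x.1 = y.1 := Fin.ext (h1.trans h2.symm)
    have h6 : x.2 ≠ y.2 := by
      rcases h.2 with h7 | h7
      · exact h7.2
      · exact absurd h5 h7.1
    have h6' : x.2.val ≠ y.2.val := fun h7 => h6 (Fin.ext h7)
    apply h.1
    refine Prod.ext h5.symm ?_
    unfold partner
    by_cases h8 : x.2.val = 0
    · simp only [h8, if_true]
      refine Fin.ext ?_
      show y.2.val = 1
      omega
    · simp only [h8, if_false]
      refine Fin.ext ?_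
      show y.2.val = 0
      omega

theorem nbs_card_ge {n : ℕ} (hn : 2 ≤ n) (t : Bool) (x : Fin n × Fin n) :
    2 * (n - 1) - (if t = true then 1 else 0) ≤ (nbs hn t x).card := by
  cases t
  · have h : nbs hn false x = cross x := rfl
    rw [h, card_cross]
    simp
  · have h : nbs hn true x = (cross x).erase (partner hn x) := rfl
    rw [h, if_pos rfl, ← card_cross x]
    exact Finset.pred_card_le_card_erase

theorem adj_nbs {n : ℕ} (hn : 2 ≤ n) (t : Bool) (y : Fin n × Fin n)
    (h : (rook n t).Adj (⟨0, by omega⟩, ⟨0, by omega⟩) y) :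
    y ∈ nbs hn t (⟨0, by omega⟩, ⟨0, by omega⟩) := by
  obtain ⟨h1, h2⟩ := h
  cases t
  · rw [nbs, if_neg (by decide), mem_cross]
    exact h1
  · rw [nbs, if_pos rfl, Finset.mem_erase, mem_cross]
    refine ⟨?_, h1⟩
    intro h3
    apply h2
    rw [h3]
    simp [partner]

theorem nbs_card {n : ℕ} (hn : 2 ≤ n) (t : Bool) :
    (nbs hn t (⟨0, by omega⟩, ⟨0, by omega⟩)).card = 2 * (n - 1) - (if t = true then 1 else 0) := by
  cases t
  · rw [nbs, if_neg (by decide), card_cross]
    simp
  · rw [nbs, if_pos rfl, if_pos rfl, Finset.card_erase_of_mem, card_cross]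
    rw [mem_cross]
    left
    refine ⟨rfl, ?_⟩
    intro h
    have := Fin.ext_iff.1 h
    simp [partner] at this

theorem glue_minDegree {n : ℕ} (hn : 2 ≤ n) (t : Bool)
    [DecidableRel (glue baseG (rook n t) (⟨1, hn⟩, ⟨1, hn⟩)).Adj] :
    (glue baseG (rook n t) (⟨1, hn⟩, ⟨1, hn⟩)).minDegree =
      2 * (n - 1) - (if t = true then 1 else 0) := by
  have hinj : ∀ c : Fin 12, Function.Injective (fun y : Fin n × Fin n => (c, y)) :=
    fun c a b h => (Prod.ext_iff.1 h).2
  apply le_antisymm
  · refine (SimpleGraph.minDegree_le_degree _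
      ((0 : Fin 12), ((⟨0, by omega⟩, ⟨0, by omega⟩) : Fin n × Fin n))).trans ?_
    rw [← SimpleGraph.card_neighborFinset_eq_degree, ← nbs_card hn t,
      ← Finset.card_image_of_injective _ (hinj 0)]
    apply Finset.card_le_card
    rintro ⟨c, y⟩ hy
    rw [SimpleGraph.mem_neighborFinset] at hy
    rcases hy with ⟨h1, h2⟩ | ⟨h1, _, _⟩
    · have h1' : (0 : Fin 12) = c := h1
      subst h1'
      exact Finset.mem_image.2 ⟨y, adj_nbs hn t y h2, rfl⟩
    · have h2 := Fin.ext_iff.1 (Prod.ext_iff.1 h1).1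
      simp at h2
  · have : Nonempty (Fin 12 × (Fin n × Fin n)) := ⟨(0, (⟨1, hn⟩, ⟨1, hn⟩))⟩
    apply SimpleGraph.le_minDegree_of_forall_le_degree
    rintro ⟨c, x⟩
    refine (nbs_card_ge hn t x).trans ?_
    rw [← SimpleGraph.card_neighborFinset_eq_degree,
      ← Finset.card_image_of_injective _ (hinj c)]
    apply Finset.card_le_card
    intro w hw
    obtain ⟨y, hy, rfl⟩ := Finset.mem_image.1 hw
    rw [SimpleGraph.mem_neighborFinset]
    exact Or.inl ⟨rfl, nbs_adj hn t x y hy⟩

theorem base01 : baseG.Adj 0 1 := by decide +kernel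

theorem glue_all {n : ℕ} (hn : 2 ≤ n) (t : Bool) (ht : t = true → 3 ≤ n)
    [DecidableRel (glue baseG (rook n t) (⟨1, hn⟩, ⟨1, hn⟩)).Adj] :
    (glue baseG (rook n t) (⟨1, hn⟩, ⟨1, hn⟩)).Connected ∧
    VertexCritical (glue baseG (rook n t) (⟨1, hn⟩, ⟨1, hn⟩)) ∧
    (glue baseG (rook n t) (⟨1, hn⟩, ⟨1, hn⟩)).minDegree =
      2 * (n - 1) - (if t = true then 1 else 0) ∧
    bondage (glue baseG (rook n t) (⟨1, hn⟩, ⟨1, hn⟩)) = 2 := by
  have hh : domNum (rook n t) = (n - 1) + 1 := by
    rw [domNum_rook (by omega) ht]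
    omega
  have hcr := glue_critical baseG (rook n t) (⟨1, hn⟩, ⟨1, hn⟩) (n - 1) hh base_critical
    (rook_critical (by omega) ht)
  refine ⟨?_, hcr, glue_minDegree hn t, ?_⟩
  · exact glue_connected _ _ _ 0 (fun c => base_reach _ c (Nat.lt_succ_self _)) (rook_reach hn)
  · apply le_antisymm
    · refine (glue_bondage baseG (rook n t) _ (n - 1) hh (rook_critical (by omega) ht) baseF
        baseF_sub ?_).trans (by decide +kernel)
      rw [domNum_base]
      exact domNum_baseF
    · refine two_le_bondage _ hcr ?_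
      refine ⟨s((0, (⟨1, hn⟩, ⟨1, hn⟩)), (1, (⟨1, hn⟩, ⟨1, hn⟩))), ?_⟩
      rw [SimpleGraph.mem_edgeSet]
      exact Or.inr ⟨rfl, rfl, base01⟩

/-- In every vc-graph with an edge the bondage number is at least `2` (and if it is connected, its
minimum degree is at least `2`); and for every `d ≥ 2` there is a connected vc-graph with minimum
degree `d` and bondage number `2`. -/
theorem result :
    (∀ (V : Type) [Fintype V] (G : SimpleGraph V) [DecidableRel G.Adj], VertexCritical G →
      G.edgeSet.Nonempty → 2 ≤ bondage G ∧ (G.Connected → 2 ≤ G.minDegree)) ∧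
    ∀ d : ℕ, 2 ≤ d → ∃ (V : Type) (_ : Fintype V) (G : SimpleGraph V) (_ : DecidableRel G.Adj),
      G.Connected ∧ VertexCritical G ∧ G.minDegree = d ∧ bondage G = 2 := by
  classical
  refine ⟨fun V _ G _ h he => ⟨two_le_bondage G h he, two_le_minDegree G h he⟩, ?_⟩
  intro d hd
  rcases Nat.even_or_odd' d with ⟨k, hk | hk⟩
  · have hn : 2 ≤ k + 1 := by omega
    obtain ⟨h1, h2, h3, h4⟩ := glue_all hn false (fun h => by simp at h)
    refine ⟨_, inferInstance, _, inferInstance, h1, h2, ?_, h4⟩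
    rw [h3]
    simp only [Bool.false_eq_true, if_false]
    omega
  · have hn : 2 ≤ k + 2 := by omega
    obtain ⟨h1, h2, h3, h4⟩ := glue_all hn true (fun _ => by omega)
    refine ⟨_, inferInstance, _, inferInstance, h1, h2, ?_, h4⟩
    rw [h3]
    simp only [if_true]
    omega

end Pool.Agent.Results.MP_29e5d4_co.BondageTwo
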